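import Pool.Agent.H.MP_deabf1_gt.helper65.Geo4

/-!
Ziller's finiteness conjecture for at most four eigenvalues: on a compact homogeneous space whose
isotropy representation is a sum of pairwise inequivalent irreducible representations and which is
not a flat torus, there are up to homothety only finitely many invariant Einstein metrics with at
most four distinct eigenvalues with respect to a fixed invariant inner product; in particular
there are only finitely many invariant Einstein metrics if there are at most four summands.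
-/

namespace Pool.Agent.Results.MP_deabf1_gt.FourEigenvalues

open Pool.Agent.H.MP_deabf1_gt
open LinearMap (BilinForm)

theorem result {𝔤 K : Type*} [LieRing 𝔤] [LieAlgebra ℝ 𝔤] [Module.Finite ℝ 𝔤] [Group K]
    (D : HomData 𝔤 K) {q : ℕ} (m : Fin q → Submodule ℝ 𝔤) (hm : D.Decomp m)
    (hflat : ∃ x ∈ D.𝔪, ∃ y : 𝔤, ⁅x, y⁆ ≠ 0) :
    ∃ F : Finset (BilinForm ℝ 𝔤), ∀ (g : BilinForm ℝ 𝔤) (lam : ℝ), D.IsMetric g →
      D.IsEinstein g lam →
      (q ≤ 4 ∨ ∃ S : Finset ℝ, S.card ≤ 4 ∧ ∀ i, ∃ a ∈ S, ∀ x ∈ m i, g x x = a * D.Q x x) →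
      ∃ c : ℝ, 0 < c ∧ c • g ∈ F :=
  D.finite_einstein_vals hm hflat

end Pool.Agent.Results.MP_deabf1_gt.FourEigenvalues
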