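import Pool.Agent.H.MP_deabf1_gt.helper65.Gn7
import Pool.Agent.H.MP_deabf1_gt.helper94.Mono

/-!
Ziller's finiteness conjecture outside codimension two: for every number of summands there is a
bound `N` such that the conjecture holds for all compact homogeneous spaces for which any two
integer relations of size at most `N` between the dimensions of the summands are proportional.
-/

namespace Pool.Agent.Results.MP_deabf1_gt.GenericDimensions

open Pool.Agent.H.MP_deabf1_gt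
open LinearMap (BilinForm)

universe u v

theorem result (r : ℕ) : ∃ N : ℕ, ∀ {𝔤 : Type u} {K : Type v} [LieRing 𝔤] [LieAlgebra ℝ 𝔤]
    [Module.Finite ℝ 𝔤] [Group K] (D : HomData 𝔤 K) {q : ℕ} (m : Fin q → Submodule ℝ 𝔤),
    D.Decomp m → (∃ x ∈ D.𝔪, ∃ y : 𝔤, ⁅x, y⁆ ≠ 0) →
    ∀ π : Fin q → Fin r, Function.Surjective π →
    (∀ n n' : Fin r → ℤ, (∀ a, |n a| ≤ N) → (∀ a, |n' a| ≤ N) →
      ∑ i, n (π i) * (Module.finrank ℝ (m i) : ℤ) = 0 →
      ∑ i, n' (π i) * (Module.finrank ℝ (m i) : ℤ) = 0 → ∀ a b, n a * n' b = n b * n' a) →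
    ∃ F : Finset (BilinForm ℝ 𝔤), ∀ (g : BilinForm ℝ 𝔤) (lam : ℝ), D.IsMetric g →
      D.IsEinstein g lam →
      (Function.Injective π ∨ ∃ a : Fin r → ℝ, ∀ i, ∀ x ∈ m i, g x x = a (π i) * D.Q x x) →
      ∃ c : ℝ, 0 < c ∧ c • g ∈ F := by
  obtain ⟨N, hN⟩ := HomData.finite_einstein_generic.{u, v} (r := r)
    fun T γ d S hT hS a ha => Gen.mono_finite hT hS ha
  exact ⟨N, fun D _ m hm hflat π hπ hrel => hN D hm hflat hπ hrel⟩

end Pool.Agent.Results.MP_deabf1_gt.GenericDimensions
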