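import Pool.Agent.H.MP_deabf1_gt.helper65.Tet16
import Pool.Agent.H.MP_deabf1_gt.helper32.Glb

/-!
Ziller's finiteness conjecture for spaces of tetrahedral type: the summands `m i` of the isotropy
representation are attached to edges `e i` of the complete graph on four points, such that the
component of `[m i, m j]` in `m k` vanishes unless `e i`, `e j`, `e k` form a triangle, and for
each triangle some such component does not vanish. Then up to homothety there are only finitely
many invariant Einstein metrics (which are constant on the edges, if several summands are attached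
to one edge). Examples: `SU(N)/S(U(n₁) × ⋯ × U(n₄))` and the real and quaternionic analogues.
-/

namespace Pool.Agent.Results.MP_deabf1_gt.Tetrahedral

open Pool.Agent.H.MP_deabf1_gt
open LinearMap (BilinForm)

theorem result {𝔤 K : Type*} [LieRing 𝔤] [LieAlgebra ℝ 𝔤] [Module.Finite ℝ 𝔤] [Group K]
    (D : HomData 𝔤 K) {q : ℕ} (m : Fin q → Submodule ℝ 𝔤) (hm : D.Decomp m)
    (e : Fin q → Sym2 (Fin 4)) (he : ∀ i, ¬ (e i).IsDiag)
    (h0 : ∀ i j k, ¬ IsTriangle (e i) (e j) (e k) →
      ∀ x ∈ m i, ∀ y ∈ m j, ∀ z ∈ m k, D.Q ⁅x, y⁆ z = 0)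
    (h1 : ∀ a b c, IsTriangle a b c → ∃ i j k, e i = a ∧ e j = b ∧ e k = c ∧
      ∃ x ∈ m i, ∃ y ∈ m j, ∃ z ∈ m k, D.Q ⁅x, y⁆ z ≠ 0) :
    ∃ F : Finset (BilinForm ℝ 𝔤), ∀ (g : BilinForm ℝ 𝔤) (lam : ℝ), D.IsMetric g →
      D.IsEinstein g lam →
      (Function.Injective e ∨ ∃ a : Sym2 (Fin 4) → ℝ, ∀ i, ∀ x ∈ m i, g x x = a (e i) * D.Q x x) →
      ∃ c : ℝ, 0 < c ∧ c • g ∈ F :=
  D.finite_einstein_tetra (fun hT _ _ _ hS hinf hd => Tet.exists_end hT hS hinf hd) hm e he h0 h1

end Pool.Agent.Results.MP_deabf1_gt.Tetrahedral
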