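import Pool.Agent.H.MP_deabf1_gt.WM

/-!
Ziller's finiteness conjecture for towers with any number of summands: suppose that the isotropy
representation of a compact homogeneous space `G/K`, not a flat torus, is the sum of the pairwise
inequivalent irreducible representations `m i`, which can be arranged in floors so that

* for every `n` the isotropy algebra together with the floors up to the `n`-th is a subalgebra;
* every floor is a single summand, or consists of at most three summands which commute with all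
  lower floors;
* `G` and `K` have the same rank, or no summand below the top floor is isomorphic to an invariant
  subspace of the isotropy algebra.

Then up to homothety there are only finitely many invariant Einstein metrics.
-/

namespace Pool.Agent.Results.MP_deabf1_gt.Towers

open Pool.Agent.H.MP_deabf1_gt
open LinearMap (BilinForm)

theorem result {𝔤 K : Type*} [LieRing 𝔤] [LieAlgebra ℝ 𝔤] [Module.Finite ℝ 𝔤] [Group K]
    (D : HomData 𝔤 K) {q : ℕ} (m : Fin q → Submodule ℝ 𝔤) (hm : D.Decomp m)
    (hflat : ∃ x ∈ D.𝔪, ∃ y : 𝔤, ⁅x, y⁆ ≠ 0) (fl : Fin q → ℕ)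
    (hsub : ∀ n, ∃ H : LieSubalgebra ℝ 𝔤,
      H.toSubmodule = D.𝔨.toSubmodule ⊔ ⨆ i, ⨆ (_ : fl i ≤ n), m i)
    (hfloor : ∀ n, (∀ i j, fl i = n → fl j = n → i = j) ∨
      ((Finset.univ.filter fun i => fl i = n).card ≤ 3 ∧
        ∀ i j, fl i = n → fl j < n → ∀ x ∈ m i, ∀ y ∈ m j, ⁅x, y⁆ = 0))
    (hK : D.EqualRank ∨
      ∀ i j, fl i < fl j → ∀ V ≤ D.𝔨.toSubmodule, ¬ D.Equivalent (m i) V) :
    ∃ F : Finset (BilinForm ℝ 𝔤), ∀ (g : BilinForm ℝ 𝔤) (lam : ℝ), D.IsMetric g →
      D.IsEinstein g lam → ∃ c : ℝ, 0 < c ∧ c • g ∈ F :=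
  D.finite_einstein_tower hm hflat hsub hfloor (hK.elim
    (fun h i _ _ => D.equalRank_inequiv h hm i) fun h => h)

end Pool.Agent.Results.MP_deabf1_gt.Towers
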